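import Pool.Agent.J4H33.H2

/-!
# Generalized Cunningham chains with multipliers in arbitrary sparse sets

A Cunningham chain of the first kind is a sequence of primes with `p_i = 2 p_(i-1) + 1`. Here the rule is
`p_i = a_i p_(i-1) - h_i`, with `a_i` in an ARBITRARY given set `A_i` of at least `M ^ (1 - ε)` primes in `[β M, M]`, where
`M` may be a power of `log N`, and with small shifts `0 < h_i < H_i`, `H_i ≥ M`. For every fixed `k`, for all but `N / D` of
the integers `n ≤ N` the number of such chains `n = p_0, p_1, ..., p_k` (with `p_1, ..., p_k` prime) is `1 + O(δ)` times the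
expected number, the product of the `|A_i| H_i / log N`. As `D` may be any power of `log N`, this holds for almost all
primes `p_0`.
-/

set_option autoImplicit false

namespace Pool.Agent.Results.MP_c77da8_nt.SparseMultiplierChains

open Finset

/-- the set of the primes `p` with `x - H < p < x` -/
noncomputable def window (H x : ℝ) : Finset ℕ := (Icc 1 ⌊x⌋₊).filter (fun p => p.Prime ∧ x - H < p ∧ (p : ℝ) < x)

/-- for `L = [(A_1, H_1), ..., (A_k, H_k)]`, the number of sequences `a_1, p_1, ..., a_k, p_k` such that, with `p_0 = n`,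
every `a_i` lies in `A_i` and every `p_i` is a prime with `a_i p_(i-1) - H_i < p_i < a_i p_(i-1)` -/
noncomputable def chains : List (Finset ℕ × ℝ) → ℕ → ℕ
  | [], _ => 1
  | (S :: L), n => ∑ a ∈ S.1, ∑ p ∈ window S.2 ((a : ℝ) * n), chains L p

/-- the expected number of chains: the product of the `|A_i| H_i / log N` -/
noncomputable def expected (N : ℝ) (L : List (Finset ℕ × ℝ)) : ℝ := (L.map (fun S => (S.1.card : ℝ) * S.2 / Real.log N)).prod

theorem result (k : ℕ) (hk : 1 ≤ k) (γ ε ρ β δ : ℝ) (hγ : 0 < γ) (hε : 0 < ε) (hcond : γ + ε < 1 / 3) (hρ : 0 < ρ)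
    (hβ : 0 < β) (hδ : 0 < δ) :
    ∃ t N₀ : ℝ, 0 < t ∧ ∀ N : ℝ, N₀ ≤ N → ∀ M D : ℝ, 1 ≤ D → 0 < M → D * (Real.log N) ^ (k + 1) ≤ M ^ γ → M ≤ N ^ t →
      ∀ L : List (Finset ℕ × ℝ), L.length = k →
      (∀ S ∈ L, (∀ a ∈ S.1, a.Prime ∧ β * M ≤ (a : ℝ) ∧ (a : ℝ) ≤ M) ∧ M ^ (1 - ε) ≤ (S.1.card : ℝ) ∧
        M ≤ S.2 ∧ S.2 ≤ N ^ (1 - ρ)) →
      (((Icc 1 ⌊N⌋₊).filter (fun n => ¬ |(chains L n : ℝ) - expected N L| ≤ δ * expected N L)).card : ℝ) ≤ N / D := by
  classical
  obtain ⟨δ₁, hδ₁⟩ : ∃ δ₁, δ₁ = min δ 1 := ⟨_, rfl⟩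
  have hδ₁0 : 0 < δ₁ := by rw [hδ₁]; exact lt_min hδ one_pos
  have hδ₁1 : δ₁ ≤ δ := by rw [hδ₁]; exact min_le_left _ _
  have hδ₁2 : δ₁ ≤ 1 := by rw [hδ₁]; exact min_le_right _ _
  obtain ⟨β₁, hβ₁⟩ : ∃ β₁, β₁ = min β 1 := ⟨_, rfl⟩
  have hβ₁0 : 0 < β₁ := by rw [hβ₁]; exact lt_min hβ one_pos
  have hβ₁1 : β₁ ≤ β := by rw [hβ₁]; exact min_le_left _ _
  have hβ₁2 : β₁ ≤ 1 := by rw [hβ₁]; exact min_le_right _ _
  obtain ⟨t, N₀, ht, hmain⟩ := Pool.Agent.J4H33.chains_main k hk γ ε ρ β₁ δ₁ hγ hε hcond hρ hβ₁0 hβ₁2 hδ₁0 hδ₁2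
  refine ⟨t, max N₀ 3, ht, fun N hN M D hD1 hM0 hMD hMN L hL hLS => ?_⟩
  have hNN := (le_max_left _ _).trans hN
  have hN3 := (le_max_right _ _).trans hN
  have hlog : 0 < Real.log N := Real.log_pos (by linarith)
  have hch : ∀ L : List (Finset ℕ × ℝ), ∀ n, (chains L n : ℝ) = Pool.Agent.J4H33.chn L n := by
    intro L
    induction L with
    | nil => intro n; unfold chains Pool.Agent.J4H33.chn; norm_num
    | cons S L ih =>
      intro n
      unfold chains Pool.Agent.J4H33.chn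
      rw [Nat.cast_sum]
      apply sum_congr rfl
      intro a _
      rw [Nat.cast_sum]
      apply sum_congr rfl
      intro p _
      exact ih p
  have hex : ∀ L : List (Finset ℕ × ℝ), expected N L = Pool.Agent.J4H33.ech (Real.log N) L := by
    intro L
    induction L with
    | nil => unfold expected Pool.Agent.J4H33.ech; simp
    | cons S L ih =>
      unfold expected at ih
      unfold expected Pool.Agent.J4H33.ech
      rw [List.map_cons, List.prod_cons, ih]
      ring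
  have h1 := hmain N hNN M D hD1 hM0 hMD hMN L hL (fun S hS => by
    obtain ⟨a1, a2, a3, a4⟩ := hLS S hS
    exact ⟨fun a ha => ⟨(a1 a ha).1, (mul_le_mul_of_nonneg_right hβ₁1 hM0.le).trans (a1 a ha).2.1, (a1 a ha).2.2⟩, a2, a3, a4⟩)
  refine le_trans ?_ h1
  apply Nat.cast_le.2
  apply card_le_card
  intro n hn
  rw [mem_filter] at hn ⊢
  refine ⟨hn.1, fun hcon => hn.2 ?_⟩
  rw [hch, hex]
  refine hcon.trans ?_
  apply mul_le_mul_of_nonneg_right hδ₁1
  apply Pool.Agent.J4H33.ech_nonneg _ hlog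
  intro S hS
  exact hM0.le.trans (hLS S hS).2.2.1

end Pool.Agent.Results.MP_c77da8_nt.SparseMultiplierChains
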